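import Pool.Agent.Helper54.SRD.Final3

/-!
# Every 3-Sasakian manifold of dimension 7 has sub-Riemannian diameter at most `π`

MP_d08e19_gt, Q1 (positive answer).
-/

open Set MeasureTheory Bundle Manifold
open scoped Manifold ContDiff Topology

namespace Pool.Agent.Results.MP_d08e19_gt.SubRiemannianDiameter

section Defs

variable {E : Type} [NormedAddCommGroup E] [NormedSpace ℝ E]
variable {M : Type} [TopologicalSpace M] [ChartedSpace E M]

/-- Vector fields on `M`. -/
abbrev VF (E : Type) [NormedAddCommGroup E] [NormedSpace ℝ E] (M : Type) [TopologicalSpace M]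
    [ChartedSpace E M] := Π x : M, TangentSpace 𝓘(ℝ, E) x

/-- The Lie bracket of vector fields. -/
noncomputable def bra (Y Z : VF E M) : VF E M := fun x => VectorField.mlieBracket 𝓘(ℝ, E) Y Z x

/-- The derivative of a function in the direction of a tangent vector. -/
noncomputable def dF (f : M → ℝ) (x : M) (v : TangentSpace 𝓘(ℝ, E) x) : ℝ :=
  mfderiv 𝓘(ℝ, E) 𝓘(ℝ, ℝ) f x v

/-- The velocity of a curve in `M`. -/
noncomputable def vel (E : Type) [NormedAddCommGroup E] [NormedSpace ℝ E] {M : Type}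
    [TopologicalSpace M] [ChartedSpace E M] (γ : ℝ → M) (t : ℝ) : TangentSpace 𝓘(ℝ, E) (γ t) :=
  mfderiv 𝓘(ℝ, ℝ) 𝓘(ℝ, E) γ t (1 : ℝ)

/-- A curve `[0,1] → M` is Lipschitz: in the chart at each of its points it is Lipschitz
near the corresponding time. -/
def LipCurve (E : Type) [NormedAddCommGroup E] [NormedSpace ℝ E] {M : Type} [TopologicalSpace M]
    [ChartedSpace E M] (γ : ℝ → M) : Prop :=
  ContinuousOn γ (Icc 0 1) ∧ ∀ t ∈ Icc (0 : ℝ) 1, ∃ K : NNReal, ∃ u ∈ 𝓝[Icc 0 1] t,
    LipschitzOnWith K (fun s => extChartAt 𝓘(ℝ, E) (γ t) (γ s)) u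

variable [IsManifold 𝓘(ℝ, E) ∞ M]

/-- A vector field is differentiable at a point. -/
def DiffAt (Y : VF E M) (x : M) : Prop :=
  MDifferentiableAt 𝓘(ℝ, E) (𝓘(ℝ, E).prod 𝓘(ℝ, E))
    (fun y => (⟨y, Y y⟩ : TotalSpace E (fun x : M => TangentSpace 𝓘(ℝ, E) x))) x

/-- A vector field is smooth. -/
def SmoothVF (Y : VF E M) : Prop :=
  ContMDiff 𝓘(ℝ, E) (𝓘(ℝ, E).prod 𝓘(ℝ, E)) ∞
    (fun y => (⟨y, Y y⟩ : TotalSpace E (fun x : M => TangentSpace 𝓘(ℝ, E) x)))

/-- Smooth Riemannian metrics on `M`. -/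
abbrev Met (E : Type) [NormedAddCommGroup E] [NormedSpace ℝ E] (M : Type) [TopologicalSpace M]
    [ChartedSpace E M] [IsManifold 𝓘(ℝ, E) ∞ M] :=
  ContMDiffRiemannianMetric 𝓘(ℝ, E) ∞ E (fun x : M => TangentSpace 𝓘(ℝ, E) x)

/-- Affine connections on `M`. -/
abbrev Con (E : Type) [NormedAddCommGroup E] [NormedSpace ℝ E] (M : Type) [TopologicalSpace M]
    [ChartedSpace E M] [IsManifold 𝓘(ℝ, E) ∞ M] :=
  CovariantDerivative 𝓘(ℝ, E) E (fun x : M => TangentSpace 𝓘(ℝ, E) x)

/-- The inner product of two tangent vectors. -/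
noncomputable def ip (g : Met E M) (x : M) (v w : TangentSpace 𝓘(ℝ, E) x) : ℝ := g.inner x v w

/-- The covariant derivative `∇_v Y` at the point `x`. -/
noncomputable def nab (cov : Con E M) (Y : VF E M) (x : M) (v : TangentSpace 𝓘(ℝ, E) x) :
    TangentSpace 𝓘(ℝ, E) x := cov Y x v

/-- `cov` is the Levi-Civita connection of `g`: torsion-free and compatible with `g`. -/
structure IsLC (g : Met E M) (cov : Con E M) : Prop where
  torsion_free : ∀ (Y Z : VF E M) (x : M), DiffAt Y x → DiffAt Z x →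
    nab cov Z x (Y x) - nab cov Y x (Z x) = bra Y Z x
  metric : ∀ (Y Z : VF E M) (x : M), DiffAt Y x → DiffAt Z x → ∀ v : TangentSpace 𝓘(ℝ, E) x,
    dF (fun y => ip g y (Y y) (Z y)) x v = ip g x (nab cov Y x v) (Z x) + ip g x (Y x) (nab cov Z x v)

/-- A Killing field. -/
def IsKilling (g : Met E M) (cov : Con E M) (X : VF E M) : Prop :=
  ∀ x (v w : TangentSpace 𝓘(ℝ, E) x), ip g x (nab cov X x v) w + ip g x v (nab cov X x w) = 0

/-- The tensor `Φ Y = - ∇_Y X`. -/
noncomputable def phi (cov : Con E M) (X Y : VF E M) : VF E M := fun x => - nab cov X x (Y x)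

/-- The Sasakian condition `(∇_v Φ) Y = g(v, Y) X - g(X, Y) v`. -/
def IsSas (g : Met E M) (cov : Con E M) (X : VF E M) : Prop :=
  ∀ Y : VF E M, SmoothVF Y → ∀ x (v : TangentSpace 𝓘(ℝ, E) x),
    nab cov (phi cov X Y) x v - (- nab cov X x (nab cov Y x v)) =
      (ip g x v (Y x)) • X x - (ip g x (X x) (Y x)) • v

/-- A 3-Sasakian structure on a Riemannian manifold `(M, g)` with Levi-Civita connection `cov`:
three orthonormal smooth Killing fields `ξ_0, ξ_1, ξ_2` with `[ξ_a, ξ_{a+1}] = 2 ξ_{a+2}`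
(indices mod 3), each of which is the Reeb field of a Sasakian structure, i.e. the tensor
`Φ_a Y = - ∇_Y ξ_a` satisfies `(∇_v Φ_a) Y = g(v, Y) ξ_a - g(ξ_a, Y) v`. -/
structure ThreeSas (g : Met E M) (cov : Con E M) where
  xi : Fin 3 → VF E M
  smooth : ∀ a, SmoothVF (xi a)
  orth : ∀ a b x, ip g x (xi a x) (xi b x) = if a = b then (1 : ℝ) else 0
  killing : ∀ a, IsKilling g cov (xi a)
  sasaki : ∀ a, IsSas g cov (xi a)
  bracket : ∀ a x, bra (xi a) (xi (a + 1)) x = (2 : ℝ) • xi (a + 2) x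

variable {g : Met E M} {cov : Con E M}

/-- The velocity of `γ` exists at time `t` and is orthogonal to the three Reeb fields. -/
def HorAt (S : ThreeSas g cov) (γ : ℝ → M) (t : ℝ) : Prop :=
  MDifferentiableAt 𝓘(ℝ, ℝ) 𝓘(ℝ, E) γ t ∧ ∀ a, ip g (γ t) (S.xi a (γ t)) (vel E γ t) = 0

/-- A horizontal Lipschitz curve from `x` to `y`: the velocity exists and is orthogonal to the
three Reeb fields at almost every time. -/
structure HorCurve (S : ThreeSas g cov) (x y : M) (γ : ℝ → M) : Prop where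
  start : γ 0 = x
  finish : γ 1 = y
  lip : LipCurve E γ
  horizontal : ∀ᵐ t ∂(volume.restrict (Icc (0 : ℝ) 1)), HorAt S γ t

/-- The length of a curve `[0,1] → M`. -/
noncomputable def len (g : Met E M) (γ : ℝ → M) : ENNReal :=
  ∫⁻ t in Icc (0 : ℝ) 1, ENNReal.ofReal (Real.sqrt (ip g (γ t) (vel E γ t) (vel E γ t)))

/-- The sub-Riemannian distance. -/
noncomputable def srDist (S : ThreeSas g cov) (x y : M) : ENNReal :=
  ⨅ (γ : ℝ → M) (_ : HorCurve S x y γ), len g γ

/-- The sub-Riemannian diameter. -/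
noncomputable def srDiam (S : ThreeSas g cov) : ENNReal := ⨆ (x : M) (y : M), srDist S x y

end Defs

/-- Every compact connected 3-Sasakian manifold `M` of dimension `n > 3` (`n = 7` is the open
case) has sub-Riemannian diameter at most `π`. -/
theorem result (n : ℕ) (hn : 3 < n) (M : Type) [TopologicalSpace M] [T2Space M] [CompactSpace M]
    [ConnectedSpace M] [ChartedSpace (EuclideanSpace ℝ (Fin n)) M] [IsManifold (𝓡 n) ∞ M]
    (g : Met (EuclideanSpace ℝ (Fin n)) M) (cov : Con (EuclideanSpace ℝ (Fin n)) M)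
    (hcov : IsLC g cov) (S : ThreeSas g cov) :
    srDiam S ≤ ENNReal.ofReal Real.pi := by
  have hcov' : Pool.Agent.Helper75.SR.IsLeviCivita g cov := ⟨hcov.torsion_free, hcov.metric⟩
  let S' : Pool.Agent.Helper75.SR.ThreeSasakian g cov :=
    { xi := S.xi
      smooth := S.smooth
      orth := S.orth
      killing := S.killing
      sasaki := S.sasaki
      bracket := S.bracket }
  have h := Pool.Agent.Helper54.SRD.srMain n hn M g cov hcov' S'
  refine le_trans (le_of_eq ?_) h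
  unfold srDiam srDist Pool.Agent.Helper75.SR.srDiam Pool.Agent.Helper75.SR.srDist
  refine iSup_congr fun x => iSup_congr fun y => iInf_congr fun γ => ?_
  refine iInf_congr_Prop ⟨fun h => ⟨h.start, h.finish, h.lip, h.horizontal⟩,
    fun h => ⟨h.start, h.finish, h.lip, h.horizontal⟩⟩ fun _ => rfl

end Pool.Agent.Results.MP_d08e19_gt.SubRiemannianDiameter
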